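import Pool.Agent.K4H58.XK.Spec

open Finset

namespace Pool.Agent.K4H58.XK

/-- PIECE V1: the sum over the cuts `J` with `P ⊆ J`, `Q ∩ J = ∅`, by the size of `J` -/
theorem cut_sum {N k : ℕ} (Y0 P Q : Finset (Fin N)) (hY : Y0.card = k) (hP : P ⊆ Y0) (hQ : Q ⊆ Y0)
    (hPQ : Disjoint P Q) (hP0 : P.Nonempty) (hQ0 : Q.Nonempty) (f : ℕ → ℕ) :
    ∑ J ∈ (Js Y0).filter (fun J => P ⊆ J ∧ Disjoint Q J), f J.card =
      ∑ j ∈ Icc P.card (k - Q.card), f j * (k - P.card - Q.card).choose (j - P.card) := by
  classical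
  set R : Finset (Fin N) := Y0 \ (P ∪ Q) with hR
  have hPQY : P ∪ Q ⊆ Y0 := union_subset hP hQ
  have hRc : R.card = k - P.card - Q.card := by
    rw [hR, card_sdiff_of_subset hPQY, card_union_of_disjoint hPQ, hY, Nat.sub_sub]
  have hle : P.card + Q.card ≤ k := by
    rw [← hY, ← card_union_of_disjoint hPQ]
    exact card_le_card hPQY
  have hPR : Disjoint P R := by
    rw [hR]
    exact disjoint_sdiff.mono_left subset_union_left
  have hQR : Disjoint Q R := by
    rw [hR]
    exact disjoint_sdiff.mono_left subset_union_right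
  have hRY : R ⊆ Y0 := sdiff_subset
  have h1 : ∑ J ∈ (Js Y0).filter (fun J => P ⊆ J ∧ Disjoint Q J), f J.card =
      ∑ K ∈ R.powerset, f (P.card + K.card) := by
    symm
    refine sum_bij' (fun K _ => P ∪ K) (fun J _ => J \ P) ?_ ?_ ?_ ?_ ?_
    · intro K hK
      rw [mem_powerset] at hK
      rw [mem_filter, Js, mem_filter, mem_powerset]
      have hd : Disjoint Q (P ∪ K) := disjoint_union_right.2 ⟨hPQ.symm, hQR.mono_right hK⟩
      refine ⟨⟨union_subset hP (hK.trans hRY), ?_, ?_⟩, subset_union_left, hd⟩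
      · obtain ⟨x, hx⟩ := hP0
        exact ne_empty_of_mem (mem_union_left K hx)
      · intro h
        obtain ⟨x, hx⟩ := hQ0
        have hx1 : x ∈ P ∪ K := by rw [h]; exact hQ hx
        exact disjoint_left.1 hd hx hx1
    · intro J hJ
      rw [mem_filter, Js, mem_filter, mem_powerset] at hJ
      obtain ⟨⟨hJ1, _, _⟩, hJ2, hJ3⟩ := hJ
      rw [mem_powerset]
      intro x hx
      rw [mem_sdiff] at hx
      rw [hR, mem_sdiff, mem_union]
      refine ⟨hJ1 hx.1, ?_⟩
      rintro (h | h)
      · exact hx.2 h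
      · exact disjoint_left.1 hJ3 h hx.1
    · intro K hK
      rw [mem_powerset] at hK
      exact union_sdiff_cancel_left (hPR.mono_right hK)
    · intro J hJ
      rw [mem_filter] at hJ
      exact union_sdiff_of_subset hJ.2.1
    · intro K hK
      rw [mem_powerset] at hK
      rw [card_union_of_disjoint (hPR.mono_right hK)]
  rw [h1, sum_powerset_apply_card (fun i => f (P.card + i)), hRc]
  have h2 : ∑ j ∈ Icc P.card (k - Q.card), f j * (k - P.card - Q.card).choose (j - P.card) =
      ∑ i ∈ range (k - P.card - Q.card + 1), f (P.card + i) *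
        (k - P.card - Q.card).choose (P.card + i - P.card) := by
    have e : Icc P.card (k - Q.card) = Ico P.card (k - Q.card + 1) := by
      ext x
      simp only [mem_Icc, mem_Ico]
      omega
    rw [e, sum_Ico_eq_sum_range]
    congr 1
    congr 1
    omega
  rw [h2]
  refine sum_congr rfl fun i _ => ?_
  rw [Nat.add_sub_cancel_left, smul_eq_mul, mul_comm]

/-- PIECE V2: Vandermonde -/
theorem vand {k p q : ℕ} (h : p + q ≤ k) :
    ∑ j ∈ Icc p (k - q), k.choose j * (k - p - q).choose (j - p) = (2 * k - p - q).choose (k - p) := by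
  have e : Icc p (k - q) = Ico p (k - q + 1) := by
    ext x
    simp only [mem_Icc, mem_Ico]
    omega
  rw [e, sum_Ico_eq_sum_range]
  have e1 : k - q + 1 - p = (k - p - q) + 1 := by omega
  rw [e1]
  have e2 : 2 * k - p - q = (k - p - q) + k := by omega
  rw [e2, Nat.add_choose_eq, Nat.sum_antidiagonal_eq_sum_range_succ
    (fun i j => (k - p - q).choose i * k.choose j)]
  have hsub : range (k - p - q + 1) ⊆ range (k - p).succ := by
    intro x hx
    rw [mem_range] at hx ⊢
    omega
  rw [← sum_subset hsub]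
  · refine sum_congr rfl fun i hi => ?_
    rw [mem_range] at hi
    rw [Nat.add_sub_cancel_left, mul_comm]
    congr 1
    rw [← Nat.choose_symm (show p + i ≤ k by omega)]
    congr 1
    omega
  · intro i _ hi
    rw [mem_range, not_lt] at hi
    rw [Nat.choose_eq_zero_of_lt (by omega), zero_mul]

/-- PIECE V3: the total weight of the cuts -/
theorem total {N k : ℕ} (hk : 1 ≤ k) (Y0 : Finset (Fin N)) (hY : Y0.card = k) :
    ∑ J ∈ Js Y0, k.choose J.card = (2 * k).choose k - 2 := by
  classical
  have h1 : ∑ J ∈ Y0.powerset, k.choose J.card = (2 * k).choose k := by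
    rw [sum_powerset_apply_card (fun i => k.choose i), hY]
    have h := vand (k := k) (p := 0) (q := 0) (by omega)
    simp only [Nat.sub_zero] at h
    rw [← h]
    have e : Icc 0 k = range (k + 1) := by
      ext x
      simp only [mem_Icc, mem_range]
      omega
    rw [e]
    refine sum_congr rfl fun i _ => ?_
    rw [smul_eq_mul]
  have hne : (∅ : Finset (Fin N)) ≠ Y0 := by
    intro h
    rw [← h] at hY
    simp at hY
    omega
  have h2 : Js Y0 = (Y0.powerset.erase ∅).erase Y0 := by
    ext J
    simp only [Js, mem_filter, mem_erase]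
    tauto
  have h3 : Y0 ∈ Y0.powerset.erase ∅ := by
    rw [mem_erase]
    exact ⟨hne.symm, mem_powerset_self _⟩
  have h4 : (∅ : Finset (Fin N)) ∈ Y0.powerset := empty_mem_powerset _
  have h5 := add_sum_erase _ (fun J : Finset (Fin N) => k.choose J.card) h4
  have h6 := add_sum_erase _ (fun J : Finset (Fin N) => k.choose J.card) h3
  simp only [card_empty, Nat.choose_zero_right, hY, Nat.choose_self] at h5 h6
  rw [h2]
  omega

end Pool.Agent.K4H58.XK
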