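import Pool.Agent.K4H59.TL.Spec

open Set

namespace Pool.Agent.K4H59.TL

open Pool.Agent.K4H72.Til (IsPolygon ShareEdge IsTiling Tile Derivable Adj HasLocEig)

variable {K : Set ℂ} {O : ℂ} {H : Finset (ℂ →L[ℝ] ℝ)} {f₀ h h' : ℂ →L[ℝ] ℝ} {j j' : ℕ}

theorem rep_exists (hK : IsPolygon K) (hO : O ∈ interior K) : ∃ H : Finset (ℂ →L[ℝ] ℝ), Rep K O H := by
  classical
  obtain ⟨-, hc, -, F, hF0, hF⟩ := hK
  -- strict inequality at `O`
  have hlt : ∀ p ∈ F, p.1 O < p.2 := by
    intro p hp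
    have hle : ∀ x ∈ K, p.1 x ≤ p.2 := by
      intro x hx; rw [hF] at hx; exact hx p hp
    rcases lt_or_eq_of_le (hle O (interior_subset hO)) with h1 | h1
    · exact h1
    exfalso
    obtain ⟨y, hy⟩ : ∃ y, p.1 y ≠ 0 := by
      by_contra hn
      push Not at hn
      exact hF0 p hp (ContinuousLinearMap.ext hn)
    -- move in the direction `y`
    have hcont : Continuous fun t : ℝ => O + t • ((p.1 y) • y) := by fun_prop
    have hnhds : (fun t : ℝ => O + t • ((p.1 y) • y)) ⁻¹' interior K ∈ nhds (0 : ℝ) := by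
      apply hcont.continuousAt.preimage_mem_nhds
      simpa using isOpen_interior.mem_nhds hO
    obtain ⟨ε, hε, hb⟩ := Metric.mem_nhds_iff.1 hnhds
    have h2 : O + (ε / 2) • ((p.1 y) • y) ∈ K := by
      apply interior_subset
      apply hb
      rw [Metric.mem_ball, dist_zero_right, Real.norm_of_nonneg (by positivity)]
      linarith
    have h3 := hle _ h2
    rw [map_add, map_smul, map_smul, smul_eq_mul, smul_eq_mul, h1] at h3
    have h4 : 0 < ε / 2 * (p.1 y * p.1 y) := by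
      have := mul_self_pos.2 hy
      positivity
    linarith
  refine ⟨F.image fun p => (p.2 - p.1 O)⁻¹ • p.1, ?_, ?_⟩
  · rw [hF]
    ext x
    constructor
    · intro hx h' hh'
      obtain ⟨p, hp, rfl⟩ := Finset.mem_image.1 hh'
      have h1 := hx p hp
      have h2 := hlt p hp
      show (p.2 - p.1 O)⁻¹ * p.1 (x - O) ≤ 1
      rw [inv_mul_le_one₀ (by linarith), map_sub]
      linarith
    · intro hx p hp
      have h1 : (p.2 - p.1 O)⁻¹ * p.1 (x - O) ≤ 1 := hx _ (Finset.mem_image_of_mem _ hp)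
      have h2 := hlt p hp
      rw [inv_mul_le_one₀ (by linarith), map_sub] at h1
      linarith
  · intro y hy
    by_contra hn
    push Not at hn
    have hray : ∀ t : ℝ, 0 ≤ t → O + t • y ∈ K := by
      intro t ht
      rw [hF]
      intro p hp
      have h1 : (p.2 - p.1 O)⁻¹ * p.1 y ≤ 0 := hn _ (Finset.mem_image_of_mem _ hp)
      have h2 := hlt p hp
      have h3 : p.1 y ≤ 0 := by
        by_contra hcon
        push Not at hcon
        have : 0 < (p.2 - p.1 O)⁻¹ * p.1 y := mul_pos (inv_pos.2 (by linarith)) hcon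
        linarith
      rw [map_add, map_smul, smul_eq_mul]
      nlinarith
    obtain ⟨R, hR⟩ := hc.isBounded.exists_norm_le
    have hyn : 0 < ‖y‖ := norm_pos_iff.2 hy
    have h5 := hR _ (hray ((|R| + ‖O‖ + 1) / ‖y‖) (by positivity))
    have h6 : ‖((|R| + ‖O‖ + 1) / ‖y‖) • y‖ = |R| + ‖O‖ + 1 := by
      rw [norm_smul, Real.norm_of_nonneg (by positivity), div_mul_cancel₀ _ hyn.ne']
    have h7 : ‖((|R| + ‖O‖ + 1) / ‖y‖) • y‖ ≤ ‖O + ((|R| + ‖O‖ + 1) / ‖y‖) • y‖ + ‖O‖ := by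
      have e : ((|R| + ‖O‖ + 1) / ‖y‖) • y = (O + ((|R| + ‖O‖ + 1) / ‖y‖) • y) - O := by abel
      calc ‖((|R| + ‖O‖ + 1) / ‖y‖) • y‖ = ‖(O + ((|R| + ‖O‖ + 1) / ‖y‖) • y) - O‖ := by rw [← e]
        _ ≤ _ := norm_sub_le _ _
    have h8 := le_abs_self R
    linarith

end Pool.Agent.K4H59.TL
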