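import Pool.Agent.K4H59.TL.Spec

open Set

namespace Pool.Agent.K4H59.TL

open Pool.Agent.K4H72.Til (IsPolygon ShareEdge IsTiling Tile Derivable Adj HasLocEig)

variable {K : Set ℂ} {O : ℂ} {H : Finset (ℂ →L[ℝ] ℝ)} {f₀ h h' : ℂ →L[ℝ] ℝ} {j j' : ℕ}

private theorem g3_pt (hA : Act H f₀ h) : ∃ y ∈ interior {y : ℂ | f₀ y ≤ 0 ∧ ∀ h' ∈ H, h' y ≤ h y}, y ≠ 0 := by
  obtain ⟨y, hy⟩ := hA.2
  by_contra hn
  push Not at hn
  have hsub : interior {y : ℂ | f₀ y ≤ 0 ∧ ∀ h' ∈ H, h' y ≤ h y} = {0} := by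
    apply Set.Subset.antisymm
    · intro z hz; exact hn z hz
    · rintro z rfl
      rw [← hn y hy]; exact hy
  have ho : IsOpen ({0} : Set ℂ) := hsub ▸ isOpen_interior
  exact not_isOpen_singleton (0 : ℂ) ho

private theorem g3_h_pos (hR : Rep K O H) (hA : Act H f₀ h) :
    ∃ y ∈ interior {y : ℂ | f₀ y ≤ 0 ∧ ∀ h' ∈ H, h' y ≤ h y}, 0 < h y := by
  obtain ⟨y, hy, hy0⟩ := g3_pt hA
  obtain ⟨h', hh', hp⟩ := hR.pos y hy0
  exact ⟨y, hy, hp.trans_le ((interior_subset hy).2 h' hh')⟩

theorem pc_polygon (hR : Rep K O H) (hK : IsCompact K) (hf : f₀ ≠ 0) (hA : Act H f₀ h) (j : ℕ) :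
    IsPolygon (pc H f₀ O h j) := by
  classical
  obtain ⟨y₀, hy₀, hpos⟩ := g3_h_pos hR hA
  have hh0 : h ≠ 0 := by
    rintro rfl
    simp at hpos
  have hc : ∀ g : ℂ →L[ℝ] ℝ, Continuous fun x : ℂ => g (x - O) := fun g =>
    g.continuous.comp (continuous_id.sub continuous_const)
  have hclosed : IsClosed (pc H f₀ O h j) := by
    have e : pc H f₀ O h j = {x | f₀ (x - O) ≤ 0} ∩ ((⋂ h' ∈ H, {x | h' (x - O) ≤ h (x - O)}) ∩
        ({x | (1 / 2 : ℝ) ^ (j + 1) ≤ h (x - O)} ∩ {x | h (x - O) ≤ (1 / 2 : ℝ) ^ j})) := by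
      ext x; simp [pc]
    rw [e]
    refine (isClosed_le (hc _) continuous_const).inter (IsClosed.inter ?_
      ((isClosed_le continuous_const (hc _)).inter (isClosed_le (hc _) continuous_const)))
    exact isClosed_biInter fun h' _ => isClosed_le (hc _) (hc _)
  have hconv : Convex ℝ (pc H f₀ O h j) := by
    intro x hx y hy a b ha hb hab
    have key : ∀ g : ℂ →L[ℝ] ℝ, g (a • x + b • y - O) = a * g (x - O) + b * g (y - O) := by
      intro g
      have : a • x + b • y - O = a • (x - O) + b • (y - O) := by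
        have : O = (a + b) • O := by rw [hab, one_smul]
        rw [smul_sub, smul_sub]
        nth_rewrite 1 [this]
        rw [add_smul]
        abel
      rw [this, map_add, map_smul, map_smul, smul_eq_mul, smul_eq_mul]
    obtain ⟨x1, x2, x3, x4⟩ := hx
    obtain ⟨y1, y2, y3, y4⟩ := hy
    refine ⟨?_, ?_, ?_, ?_⟩
    · rw [key]; nlinarith
    · intro h' hh'
      rw [key, key]
      exact add_le_add (mul_le_mul_of_nonneg_left (x2 h' hh') ha)
        (mul_le_mul_of_nonneg_left (y2 h' hh') hb)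
    · rw [key]
      calc (1 / 2 : ℝ) ^ (j + 1) = a * (1 / 2 : ℝ) ^ (j + 1) + b * (1 / 2 : ℝ) ^ (j + 1) := by
            rw [← add_mul, hab, one_mul]
        _ ≤ _ := add_le_add (mul_le_mul_of_nonneg_left x3 ha) (mul_le_mul_of_nonneg_left y3 hb)
    · rw [key]
      calc a * h (x - O) + b * h (y - O) ≤ a * (1 / 2 : ℝ) ^ j + b * (1 / 2 : ℝ) ^ j :=
            add_le_add (mul_le_mul_of_nonneg_left x4 ha) (mul_le_mul_of_nonneg_left y4 hb)
        _ = _ := by rw [← add_mul, hab, one_mul]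
  -- an interior point
  have hint : (interior (pc H f₀ O h j)).Nonempty := by
    set t : ℝ := (3 / 4) * (1 / 2 : ℝ) ^ j / h y₀ with ht
    have htp : 0 < t := by positivity
    have hct : Continuous fun x : ℂ => t⁻¹ • (x - O) :=
      (continuous_id.sub continuous_const).const_smul t⁻¹
    have hopen : IsOpen ((fun x : ℂ => t⁻¹ • (x - O)) ⁻¹'
        interior {y : ℂ | f₀ y ≤ 0 ∧ ∀ h' ∈ H, h' y ≤ h y}) := isOpen_interior.preimage hct
    have hopen2 : IsOpen {x : ℂ | (1 / 2 : ℝ) ^ (j + 1) < h (x - O) ∧ h (x - O) < (1 / 2 : ℝ) ^ j} :=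
      (isOpen_lt continuous_const (hc h)).inter (isOpen_lt (hc h) continuous_const)
    refine ⟨O + t • y₀, ?_⟩
    refine mem_interior.2 ⟨_, ?_, hopen.inter hopen2, ?_⟩
    · rintro x ⟨hx1, hx2, hx3⟩
      have hx1' := interior_subset hx1
      obtain ⟨q1, q2⟩ := hx1'
      refine ⟨?_, ?_, hx2.le, hx3.le⟩
      · rw [map_smul, smul_eq_mul] at q1
        by_contra hcon
        push Not at hcon
        have := mul_pos (inv_pos.2 htp) hcon
        linarith
      · intro h' hh'
        have q3 := q2 h' hh'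
        rw [map_smul, map_smul, smul_eq_mul, smul_eq_mul] at q3
        exact le_of_mul_le_mul_left q3 (inv_pos.2 htp)
    · have e1 : O + t • y₀ - O = t • y₀ := by abel
      refine ⟨?_, ?_⟩
      · rw [Set.mem_preimage]
        rw [e1, smul_smul, inv_mul_cancel₀ htp.ne', one_smul]
        exact hy₀
      · show (1 / 2 : ℝ) ^ (j + 1) < h (O + t • y₀ - O) ∧ h (O + t • y₀ - O) < (1 / 2 : ℝ) ^ j
        have e2 : h (t • y₀) = (3 / 4) * (1 / 2 : ℝ) ^ j := by
          rw [map_smul, smul_eq_mul, ht, div_mul_cancel₀ _ hpos.ne']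
        rw [e1, e2]
        have hj : (0 : ℝ) < (1 / 2 : ℝ) ^ j := by positivity
        constructor
        · rw [pow_succ]; linarith
        · linarith
  have hsubK : pc H f₀ O h j ⊆ K := by
    intro x hx
    rw [hR.eq]
    intro h' hh'
    exact (hx.2.1 h' hh').trans (hx.2.2.2.trans (pow_le_one₀ (by norm_num) (by norm_num)))
  refine ⟨hint.mono interior_subset, hK.of_isClosed_subset hclosed hsubK, ?_, ?_⟩
  · rw [hconv.closure_interior_eq_closure_of_nonempty_interior hint, hclosed.closure_eq]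
  · refine ⟨insert (f₀, f₀ O) (insert (-h, -(1 / 2 : ℝ) ^ (j + 1) - h O) (insert (h, (1 / 2 : ℝ) ^ j + h O)
      ((H.erase h).image fun h' => (h' - h, (h' - h) O)))), ?_, ?_⟩
    · intro f hfm
      simp only [Finset.mem_insert, Finset.mem_image, Finset.mem_erase] at hfm
      rcases hfm with rfl | rfl | rfl | ⟨h', ⟨hne, _⟩, rfl⟩
      · exact hf
      · exact neg_ne_zero.2 hh0
      · exact hh0
      · exact sub_ne_zero.2 hne
    · ext x
      simp only [pc, Set.mem_ofPred_eq]
      constructor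
      · rintro ⟨x1, x2, x3, x4⟩ f hfm
        simp only [Finset.mem_insert, Finset.mem_image, Finset.mem_erase] at hfm
        rw [map_sub] at x1 x3 x4
        rcases hfm with rfl | rfl | rfl | ⟨h', ⟨_, hm⟩, rfl⟩
        · show f₀ x ≤ f₀ O
          linarith
        · show -(h x) ≤ -(1 / 2 : ℝ) ^ (j + 1) - h O
          linarith
        · show h x ≤ (1 / 2 : ℝ) ^ j + h O
          linarith
        · have := x2 h' hm
          rw [map_sub, map_sub] at this
          show h' x - h x ≤ h' O - h O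
          linarith
      · intro hall
        have a1 := hall (f₀, f₀ O) (by simp)
        have a2 := hall (-h, -(1 / 2 : ℝ) ^ (j + 1) - h O) (by simp)
        have a3 := hall (h, (1 / 2 : ℝ) ^ j + h O) (by simp)
        change f₀ x ≤ f₀ O at a1
        change -(h x) ≤ -(1 / 2 : ℝ) ^ (j + 1) - h O at a2
        change h x ≤ (1 / 2 : ℝ) ^ j + h O at a3
        refine ⟨?_, ?_, ?_, ?_⟩
        · rw [map_sub]; linarith
        · intro h' hh'
          by_cases he : h' = h
          · rw [he]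
          · have a4 := hall (h' - h, (h' - h) O) (by
              simp only [Finset.mem_insert, Finset.mem_image, Finset.mem_erase]
              exact Or.inr (Or.inr (Or.inr ⟨h', ⟨he, hh'⟩, rfl⟩)))
            change h' x - h x ≤ h' O - h O at a4
            rw [map_sub, map_sub]; linarith
        · rw [map_sub]; linarith
        · rw [map_sub]; linarith

end Pool.Agent.K4H59.TL
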