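import Pool.Agent.K4H59.TL.Spec
import Pool.Agent.K4H12.TLM0

open Set

namespace Pool.Agent.K4H59.TL

open Pool.Agent.K4H72.Til (IsPolygon ShareEdge IsTiling Tile Derivable Adj HasLocEig)

theorem rep_polygon57 {rep : Set ℂ → Set ℂ} {t : Set ℂ → ℂ} (h1 : ∀ K, K = sh (t K) (rep K)) {K : Set ℂ}
    (hK : IsPolygon K) : IsPolygon (rep K) := by
  have h : rep K = sh (-(t K)) K := by
    conv_rhs => rw [h1 K]
    rw [sh_sh]
    have e : -(t (sh (t K) (rep K))) + t K = 0 := by rw [← h1 K]; ring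
    rw [e]
    unfold sh
    simp
  rw [h]
  exact sh_polygon _ hK

/-- PIECE M3, with the set `newT T rep t D₀` written out -/
theorem newT_tiling_of {C : Type} {T : Set (Tile C)} (hT : IsTiling T) {rep : Set ℂ → Set ℂ} {t : Set ℂ → ℂ}
    (h1 : ∀ K, K = sh (t K) (rep K))
    {D₀ : Set ℂ → Set (Set ℂ)} {ρ₀ : Set ℂ → Set ℂ → ℕ} (hD : ∀ K, IsPolygon K → GoodDec K (D₀ K) (ρ₀ K)) :
    IsTiling ({q | ∃ s ∈ T, ∃ Q₀ ∈ D₀ (rep s.1), q = (sh (t s.1) Q₀, (s.2, rep s.1, Q₀))} :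
      Set (Tile (C × Set ℂ × Set ℂ))) := by
  have hdec : ∀ s ∈ T, GoodDec (rep s.1) (D₀ (rep s.1)) (ρ₀ (rep s.1)) := fun s hs =>
    hD _ (rep_polygon57 h1 (hT.polygon s hs))
  have hsub : ∀ s ∈ T, ∀ Q₀ ∈ D₀ (rep s.1), sh (t s.1) Q₀ ⊆ s.1 := by
    intro s hs Q₀ hQ
    have : sh (t s.1) Q₀ ⊆ sh (t s.1) (rep s.1) := Set.image_mono ((hdec s hs).sub Q₀ hQ)
    rw [← h1 s.1] at this
    exact this
  refine ⟨?_, ?_, ?_, ?_⟩
  · have e : ({q | ∃ s ∈ T, ∃ Q₀ ∈ D₀ (rep s.1), q = (sh (t s.1) Q₀, (s.2, rep s.1, Q₀))} :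
        Set (Tile (C × Set ℂ × Set ℂ))) =
        ⋃ s ∈ T, (fun Q₀ => (sh (t s.1) Q₀, (s.2, rep s.1, Q₀))) '' D₀ (rep s.1) := by
      ext q
      simp only [Set.mem_iUnion, Set.mem_image]
      constructor
      · rintro ⟨s, hs, Q, hQ, rfl⟩; exact ⟨s, hs, Q, hQ, rfl⟩
      · rintro ⟨s, hs, Q, hQ, rfl⟩; exact ⟨s, hs, Q, hQ, rfl⟩
    rw [e]
    exact hT.countable.biUnion fun s hs => (hdec s hs).countable.image _
  · rintro q ⟨s, hs, Q, hQ, rfl⟩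
    exact sh_polygon _ ((hdec s hs).poly Q hQ)
  · intro z
    obtain ⟨s, hs, hz⟩ := hT.cover z
    rw [h1 s.1] at hz
    obtain ⟨z₀, hz₀, rfl⟩ := hz
    obtain ⟨Q, hQ, hzQ⟩ := (hdec s hs).cover z₀ hz₀
    exact ⟨_, ⟨s, hs, Q, hQ, rfl⟩, z₀, hzQ, rfl⟩
  · rintro q ⟨s, hs, Q, hQ, rfl⟩ q' ⟨s', hs', Q', hQ', rfl⟩ hne
    by_cases hss : s = s'
    · subst hss
      have hQQ : Q ≠ Q' := by rintro rfl; exact hne rfl
      have hd := (hdec s hs).disj Q hQ Q' hQ' hQQ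
      show Disjoint (interior (sh (t s.1) Q)) (interior (sh (t s.1) Q'))
      rw [sh_interior, sh_interior]
      exact (Set.disjoint_image_iff (add_right_injective (t s.1))).2 hd
    · have hd := hT.disj s hs s' hs' hss
      exact hd.mono (interior_mono (hsub s hs Q hQ)) (interior_mono (hsub s' hs' Q' hQ'))

end Pool.Agent.K4H59.TL
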