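import Pool.Agent.K4H58.XK.Spec

open Finset

namespace Pool.Agent.K4H58.XK

namespace J57

/-- two `k`-subsets of a set with `2k` elements are disjoint iff they are complementary -/
theorem disj_iff {k : ℕ} {A B : Finset (Fin (2 * k))} (hA : A.card = k) (hB : B.card = k) :
    Disjoint A B ↔ B = Aᶜ := by
  constructor
  · intro h
    refine eq_of_subset_of_card_le (subset_compl_iff_disjoint_left.2 h) ?_
    rw [card_compl, Fintype.card_fin, hA, hB]
    omega
  · rintro rfl
    exact disjoint_compl_right

/-- the index sets of the grids -/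
abbrev T {k : ℕ} (z : Fin (2 * k)) (Y0 : Finset (Fin (2 * k))) : Type :=
  {S : Finset (Fin (2 * k)) // S.card = k ∧ z ∈ S ∧ S ≠ Y0}

theorem card_T {k : ℕ} (z : Fin (2 * k)) (Y0 : Finset (Fin (2 * k))) (h0 : Y0.card = k) (hz : z ∈ Y0) :
    2 * (Fintype.card (T z Y0) + 1) = (2 * k).choose k := by
  classical
  have h1 : Fintype.card (T z Y0) = (univ.filter fun S : Finset (Fin (2 * k)) =>
      S.card = k ∧ z ∈ S ∧ S ≠ Y0).card := Fintype.card_subtype _
  have h2 : (univ.filter fun S : Finset (Fin (2 * k)) => S.card = k ∧ z ∈ S ∧ S ≠ Y0) =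
      (univ.filter fun S : Finset (Fin (2 * k)) => S.card = k ∧ z ∈ S).erase Y0 := by
    ext S
    simp only [mem_filter, mem_univ, true_and, mem_erase]
    tauto
  have h3 : Y0 ∈ (univ.filter fun S : Finset (Fin (2 * k)) => S.card = k ∧ z ∈ S) := by
    simp [h0, hz]
  have h4 : Fintype.card (T z Y0) + 1 = (univ.filter fun S : Finset (Fin (2 * k)) =>
      S.card = k ∧ z ∈ S).card := by
    rw [h1, h2, card_erase_add_one h3]
  have h5 : (univ.filter fun S : Finset (Fin (2 * k)) => S.card = k ∧ z ∈ S).card =
      (univ.filter fun S : Finset (Fin (2 * k)) => S.card = k ∧ z ∉ S).card := by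
    refine card_bij' (fun S _ => Sᶜ) (fun S _ => Sᶜ) ?_ ?_ ?_ ?_
    · intro S hS
      simp only [mem_filter, mem_univ, true_and] at hS ⊢
      rw [card_compl, Fintype.card_fin, hS.1, mem_compl, not_not]
      exact ⟨by omega, hS.2⟩
    · intro S hS
      simp only [mem_filter, mem_univ, true_and] at hS ⊢
      rw [card_compl, Fintype.card_fin, hS.1, mem_compl]
      exact ⟨by omega, hS.2⟩
    · intro S _
      exact compl_compl S
    · intro S _
      exact compl_compl S
  have h6 : (univ.filter fun S : Finset (Fin (2 * k)) => S.card = k ∧ z ∈ S).card +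
      (univ.filter fun S : Finset (Fin (2 * k)) => S.card = k ∧ z ∉ S).card = (2 * k).choose k := by
    have e1 : (univ.filter fun S : Finset (Fin (2 * k)) => S.card = k).card = (2 * k).choose k := by
      have : (univ.filter fun S : Finset (Fin (2 * k)) => S.card = k) =
          powersetCard k (univ : Finset (Fin (2 * k))) := by
        ext S
        simp [mem_powersetCard]
      rw [this, card_powersetCard, card_univ, Fintype.card_fin]
    rw [← e1, ← card_filter_add_card_filter_not (s := univ.filter fun S : Finset (Fin (2 * k)) =>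
      S.card = k) (fun S => z ∈ S), filter_filter, filter_filter]
  rw [h4]
  omega

section

variable {k B : ℕ} (z : Fin (2 * k)) (Y0 : Finset (Fin (2 * k)))

/-- the ground type -/
abbrev G (B : ℕ) : Type := (T z Y0 × Fin k × Fin k) ⊕ (Fin B × Fin k)

/-- the index type -/
abbrev I (B : ℕ) : Type := (T z Y0 × Bool × Fin k) ⊕ Fin B

/-- the sets `X` -/
def X : I z Y0 B → Finset (G z Y0 B)
  | .inl (S, b, r) => univ.image fun j : Fin k => if b then .inl (S, r, j) else .inl (S, j, r)
  | .inr b => univ.image fun j : Fin k => .inr (b, j)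

/-- the sets `Y` -/
def Y : I z Y0 B → Finset (Fin (2 * k))
  | .inl (S, b, _) => if b then S.1 else S.1ᶜ
  | .inr _ => Y0

theorem card_X (i : I z Y0 B) : (X z Y0 i).card = k := by
  rcases i with ⟨S, b, r⟩ | b
  · unfold X
    rw [card_image_of_injective, card_univ, Fintype.card_fin]
    intro x y h
    cases b <;> simp at h <;> exact h
  · unfold X
    rw [card_image_of_injective, card_univ, Fintype.card_fin]
    intro x y h
    simp at h
    exact h

theorem card_Y (h0 : Y0.card = k) (i : I z Y0 B) : (Y z Y0 i).card = k := by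
  rcases i with ⟨S, b, r⟩ | b
  · cases b
    · simp only [Y, Bool.false_eq_true, if_false]
      rw [card_compl, Fintype.card_fin, S.2.1]
      omega
    · simp only [Y, if_true]
      exact S.2.1
  · exact h0

theorem main (h0 : Y0.card = k) (hz : z ∈ Y0) (i j : I z Y0 B) (hij : i ≠ j) :
    Disjoint (X z Y0 i) (X z Y0 j) ↔ ¬ Disjoint (Y z Y0 i) (Y z Y0 j) := by
  rw [disj_iff (card_Y z Y0 h0 i) (card_Y z Y0 h0 j)]
  rcases i with ⟨S, b, r⟩ | b <;> rcases j with ⟨S', b', r'⟩ | b'
  · by_cases hS : S = S'
    · subst hS
      cases b <;> cases b'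
      · -- two columns
        have hr : r ≠ r' := fun h => hij (by rw [h])
        simp only [X, Y, Bool.false_eq_true, if_false]
        constructor
        · intro _ h
          rw [compl_compl] at h
          have h2 : z ∈ S.1 := S.2.2.1
          have h3 : z ∉ S.1ᶜ := by simpa using h2
          rw [h] at h3
          exact h3 h2
        · intro _
          rw [disjoint_left]
          intro x hx hx'
          rw [mem_image] at hx hx'
          obtain ⟨u, _, rfl⟩ := hx
          obtain ⟨v, _, hv⟩ := hx'
          simp at hv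
          exact hr hv.2.symm
      · -- column and row
        simp only [X, Y, Bool.false_eq_true, if_false, if_true, compl_compl, not_true, iff_false]
        rw [disjoint_left]
        intro h
        exact h (a := .inl (S, r', r)) (mem_image.2 ⟨r', mem_univ _, rfl⟩)
          (mem_image.2 ⟨r, mem_univ _, rfl⟩)
      · -- row and column
        simp only [X, Y, Bool.false_eq_true, if_false, if_true, not_true, iff_false]
        rw [disjoint_left]
        intro h
        exact h (a := .inl (S, r, r')) (mem_image.2 ⟨r', mem_univ _, rfl⟩)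
          (mem_image.2 ⟨r, mem_univ _, rfl⟩)
      · -- two rows
        have hr : r ≠ r' := fun h => hij (by rw [h])
        simp only [X, Y, if_true]
        constructor
        · intro _ h
          have h2 : z ∈ S.1 := S.2.2.1
          have h3 : z ∉ S.1ᶜ := by simpa using h2
          rw [← h] at h3
          exact h3 h2
        · intro _
          rw [disjoint_left]
          intro x hx hx'
          rw [mem_image] at hx hx'
          obtain ⟨u, _, rfl⟩ := hx
          obtain ⟨v, _, hv⟩ := hx'
          simp at hv
          exact hr hv.1.symm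
    · -- different grids
      constructor
      · intro _ h
        have h2 : z ∈ S.1 := S.2.2.1
        have h2' : z ∈ S'.1 := S'.2.2.1
        have hne : S.1 ≠ S'.1 := fun h => hS (Subtype.ext h)
        cases b <;> cases b' <;> simp only [Y, Bool.false_eq_true, if_false, if_true, compl_compl] at h
        · have h3 : z ∉ S'.1ᶜ := by simpa using h2'
          rw [h] at h3
          exact h3 h2
        · exact hne h.symm
        · exact hne (compl_injective h).symm
        · have h3 : z ∉ S.1ᶜ := by simpa using h2
          rw [← h] at h3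
          exact h3 h2'
      · intro _
        rw [disjoint_left]
        intro x hx hx'
        unfold X at hx hx'
        rw [mem_image] at hx hx'
        obtain ⟨u, _, rfl⟩ := hx
        obtain ⟨v, _, hv⟩ := hx'
        cases b <;> cases b' <;> simp at hv <;> exact hS hv.1.symm
  · constructor
    · intro _ h
      have h2 : z ∈ S.1 := S.2.2.1
      have hne := S.2.2.2
      cases b <;> simp only [Y, Bool.false_eq_true, if_false, if_true, compl_compl] at h
      · exact hne h.symm
      · have h3 : z ∉ S.1ᶜ := by simpa using h2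
        rw [← h] at h3
        exact h3 hz
    · intro _
      rw [disjoint_left]
      intro x hx hx'
      unfold X at hx hx'
      rw [mem_image] at hx hx'
      obtain ⟨u, _, rfl⟩ := hx
      obtain ⟨v, _, hv⟩ := hx'
      cases b <;> simp at hv
  · constructor
    · intro _ h
      have h2 : z ∈ S'.1 := S'.2.2.1
      have hne := S'.2.2.2
      cases b' <;> simp only [Y, Bool.false_eq_true, if_false, if_true] at h
      · exact hne (compl_injective h)
      · have h3 : z ∉ Y0ᶜ := by simpa using hz
        rw [← h] at h3
        exact h3 h2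
    · intro _
      rw [disjoint_left]
      intro x hx hx'
      unfold X at hx hx'
      rw [mem_image] at hx hx'
      obtain ⟨u, _, rfl⟩ := hx
      obtain ⟨v, _, hv⟩ := hx'
      cases b' <;> simp at hv
  · have hb : b ≠ b' := fun h => hij (by rw [h])
    simp only [X, Y]
    constructor
    · intro _ h
      have h3 : z ∉ Y0ᶜ := by simpa using hz
      rw [← h] at h3
      exact h3 hz
    · intro _
      rw [disjoint_left]
      intro x hx hx'
      rw [mem_image] at hx hx'
      obtain ⟨u, _, rfl⟩ := hx
      obtain ⟨v, _, hv⟩ := hx'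
      simp at hv
      exact hb hv.1.symm

end

end J57

/-- PIECE J: the lower bound. -/
theorem lower_bound {k : ℕ} (hk : 1 ≤ k) : ∃ n0 : ℕ, ∀ n : ℕ, n0 ≤ n →
    ∃ F : Finset (Finset (Fin n) × Finset (Fin n)), (∀ p ∈ F, p.1.card = k ∧ p.2.card = k) ∧
      (∀ p ∈ F, ∀ q ∈ F, p ≠ q → (Disjoint p.1 q.1 ↔ ¬ Disjoint p.2 q.2)) ∧
      F.card = n / k + (k * (2 * k).choose k / 2 - k) := by
  classical
  have h2k : 0 < 2 * k := by omega
  let z : Fin (2 * k) := ⟨0, h2k⟩
  obtain ⟨Y0, hz0, _, h0⟩ : ∃ u : Finset (Fin (2 * k)), {z} ⊆ u ∧ u ⊆ univ ∧ u.card = k := by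
    refine exists_subsuperset_card_eq (subset_univ _) ?_ ?_
    · rw [card_singleton]
      exact hk
    · rw [card_univ, Fintype.card_fin]
      omega
  have hz : z ∈ Y0 := hz0 (mem_singleton_self z)
  set t := Fintype.card (J57.T z Y0) with ht
  have hT := J57.card_T z Y0 h0 hz
  rw [← ht] at hT
  refine ⟨2 * k + k * (k * t), fun n hn => ?_⟩
  set B := (n - k * (k * t)) / k with hB
  have hBk : B * k ≤ n - k * (k * t) := Nat.div_mul_le_self _ _
  have hGc : Fintype.card (J57.G z Y0 B) ≤ Fintype.card (Fin n) := by
    simp only [Fintype.card_sum, Fintype.card_prod, Fintype.card_fin, ← ht]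
    have e : t * (k * k) = k * (k * t) := by ring
    rw [e]
    omega
  obtain ⟨g⟩ := Function.Embedding.nonempty_of_card_le hGc
  let c : Fin (2 * k) ↪ Fin n := Fin.castLEEmb (by omega)
  let φ : J57.I z Y0 B → Finset (Fin n) × Finset (Fin n) :=
    fun i => ((J57.X z Y0 i).map g, (J57.Y z Y0 i).map c)
  have hc1 : ∀ i, (φ i).1.card = k := fun i => by
    simp only [φ, card_map]
    exact J57.card_X z Y0 i
  have hc2 : ∀ i, (φ i).2.card = k := fun i => by
    simp only [φ, card_map]
    exact J57.card_Y z Y0 h0 i
  have hmain : ∀ i j, i ≠ j → (Disjoint (φ i).1 (φ j).1 ↔ ¬ Disjoint (φ i).2 (φ j).2) := by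
    intro i j hij
    simp only [φ]
    rw [disjoint_map, disjoint_map]
    exact J57.main z Y0 h0 hz i j hij
  have hinj : Function.Injective φ := by
    intro i j h
    by_contra hij
    have h1 := hmain i j hij
    rw [h] at h1
    have a1 : ¬ Disjoint (φ j).1 (φ j).1 := by
      rw [disjoint_self, bot_eq_empty, ← card_eq_zero, hc1]
      omega
    have a2 : ¬ Disjoint (φ j).2 (φ j).2 := by
      rw [disjoint_self, bot_eq_empty, ← card_eq_zero, hc2]
      omega
    exact a1 (h1.2 a2)
  refine ⟨univ.image φ, ?_, ?_, ?_⟩
  · intro p hp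
    rw [mem_image] at hp
    obtain ⟨i, _, rfl⟩ := hp
    exact ⟨hc1 i, hc2 i⟩
  · intro p hp q hq hpq
    rw [mem_image] at hp hq
    obtain ⟨i, _, rfl⟩ := hp
    obtain ⟨j, _, rfl⟩ := hq
    exact hmain i j fun h => hpq (by rw [h])
  · rw [card_image_of_injective _ hinj, card_univ]
    simp only [Fintype.card_sum, Fintype.card_prod, Fintype.card_fin, Fintype.card_bool, ← ht]
    have e1 : B = n / k - k * t := by
      rw [hB]
      exact Nat.sub_mul_div n k (k * t)
    have e2 : k * t ≤ n / k := by
      rw [Nat.le_div_iff_mul_le (by omega)]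
      have : k * t * k = k * (k * t) := by ring
      omega
    have e3 : k * (2 * k).choose k / 2 - k = k * t := by
      rw [← hT]
      have : k * (2 * (t + 1)) = (k * t + k) * 2 := by ring
      rw [this, Nat.mul_div_cancel _ (by norm_num)]
      omega
    rw [e1, e3]
    have e4 : t * (2 * k) = 2 * (k * t) := by ring
    rw [e4]
    omega

end Pool.Agent.K4H58.XK
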